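import Pool.Agent.helper96.PP2.SpecB

/-!
# Row DEN: density in the filtration of Pink
-/

set_option autoImplicit false

namespace Pool.Agent.PP2

open Topology Matrix

section DEN

variable {R : Type} [CommRing R] [TopologicalSpace R] [IsTopologicalRing R] [Invertible (2 : R)]

theorem DEN_TH_mem (Γ : Subgroup (GL (Fin 2) R)) {g : GL (Fin 2) R} (hg : g ∈ Γ) : TH g ∈ LL Γ :=
  AddSubgroup.le_topologicalClosure _ (AddSubgroup.subset_closure ⟨g, hg, rfl⟩)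

/-- `X ↦ [X, Y]` -/
def DEN_br1 (Y : M2 R) : M2 R →+ M2 R where
  toFun X := Br X Y
  map_zero' := by simp [Br]
  map_add' X Z := Lib_add_Br X Z Y

/-- `Y ↦ [X, Y]` -/
def DEN_br2 (X : M2 R) : M2 R →+ M2 R where
  toFun Y := Br X Y
  map_zero' := by simp [Br]
  map_add' Y Z := Lib_Br_add X Y Z

theorem DEN_cont1 (Y : M2 R) : Continuous (DEN_br1 Y) :=
  (Lib_cont_Br (R := R)).comp (continuous_id.prodMk continuous_const)

theorem DEN_cont2 (X : M2 R) : Continuous (DEN_br2 X) :=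
  (Lib_cont_Br (R := R)).comp (continuous_const.prodMk continuous_id)

theorem DEN_induct (Γ : Subgroup (GL (Fin 2) R)) (N : AddSubgroup (M2 R))
    (hN : IsClosed (N : Set (M2 R))) (f : M2 R →+ M2 R) (hf : Continuous f)
    (h : ∀ g ∈ Γ, f (TH g) ∈ N) : ∀ X ∈ LL Γ, f X ∈ N := by
  have key : LL Γ ≤ N.comap f := by
    apply AddSubgroup.topologicalClosure_minimal
    · rw [AddSubgroup.closure_le]
      rintro _ ⟨g, hg, rfl⟩
      exact h g hg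
    · exact hN.preimage hf
  intro X hX
  exact key hX

theorem DEN_TH_one : TH (1 : GL (Fin 2) R) = 0 := by
  have e : TH (1 : GL (Fin 2) R) = Th (1 : M2 R) := rfl
  rw [e, Lib_Th_one]

/-- The additive group `D n`. -/
theorem DEN_D [CompactSpace R] [T2Space R] (Γ : Subgroup (GL (Fin 2) R)) (J : Ideal R)
    (hΓ : Γ ≤ Sg J) (hcl : IsClosed (Γ : Set (GL (Fin 2) R))) [CompactSpace (GL (Fin 2) R)]
    (K K' : AddSubgroup (M2 R)) (hK : IsClosed (K : Set (M2 R))) (hK' : IsClosed (K' : Set (M2 R)))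
    (hKK : K' ≤ K)
    (hsm : ∀ g ∈ Γ, ∀ Z ∈ K, (ht g - 1) • Z ∈ K')
    (hbr : ∀ X ∈ K, ∀ Y ∈ K, ⅟(2 : R) • Br X Y ∈ K') :
    ∃ D : AddSubgroup (M2 R), IsClosed (D : Set (M2 R)) ∧
      ∀ X, X ∈ D ↔ ∃ h ∈ Γ, TH h ∈ K ∧ TH h - X ∈ K' := by
  refine ⟨{ carrier := {X | ∃ h ∈ Γ, TH h ∈ K ∧ TH h - X ∈ K'}
            zero_mem' := ⟨1, Γ.one_mem, by rw [DEN_TH_one]; exact K.zero_mem,
              by rw [DEN_TH_one, sub_zero]; exact K'.zero_mem⟩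
            add_mem' := ?_
            neg_mem' := ?_ }, ?_, fun X => Iff.rfl⟩
  · rintro X Y ⟨g, hg, h1, h2⟩ ⟨h, hh, h3, h4⟩
    have e1 : TH (g * h) = TH g + TH h + ((ht g - 1) • TH h + (ht h - 1) • TH g +
        ⅟(2 : R) • Br (TH g) (TH h)) := by
      rw [Lib_TH_mul, sub_smul, sub_smul, one_smul, one_smul]
      abel
    have e2 : (ht g - 1) • TH h + (ht h - 1) • TH g + ⅟(2 : R) • Br (TH g) (TH h) ∈ K' :=
      K'.add_mem (K'.add_mem (hsm g hg _ h3) (hsm h hh _ h1)) (hbr _ h1 _ h3)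
    refine ⟨g * h, Γ.mul_mem hg hh, ?_, ?_⟩
    · rw [e1]
      exact K.add_mem (K.add_mem h1 h3) (hKK e2)
    · have e3 : TH (g * h) - (X + Y) = (TH g - X) + (TH h - Y) + ((ht g - 1) • TH h +
          (ht h - 1) • TH g + ⅟(2 : R) • Br (TH g) (TH h)) := by
        rw [e1]
        abel
      rw [e3]
      exact K'.add_mem (K'.add_mem h2 h4) e2
  · rintro X ⟨g, hg, h1, h2⟩
    refine ⟨g⁻¹, Γ.inv_mem hg, ?_, ?_⟩
    · rw [Lib_TH_inv J g (hΓ hg)]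
      exact K.neg_mem h1
    · rw [Lib_TH_inv J g (hΓ hg)]
      have e : -TH g - -X = -(TH g - X) := by abel
      rw [e]
      exact K'.neg_mem h2
  · have hcM : CompactSpace (M2 R) := inferInstanceAs (CompactSpace (Fin 2 → Fin 2 → R))
    have hT : T2Space (M2 R) := inferInstanceAs (T2Space (Fin 2 → Fin 2 → R))
    have hS1 : IsCompact ((Γ : Set (GL (Fin 2) R)) ∩ {h | TH h ∈ K}) :=
      (hcl.inter (hK.preimage Lib_cont_TH)).isCompact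
    have hS2 : IsCompact (K' : Set (M2 R)) := hK'.isCompact
    have hcont : Continuous fun q : GL (Fin 2) R × M2 R => TH q.1 - q.2 :=
      (Lib_cont_TH.comp continuous_fst).sub continuous_snd
    have hI := ((hS1.prod hS2).image hcont).isClosed
    have e : {X | ∃ h ∈ Γ, TH h ∈ K ∧ TH h - X ∈ K'} = (fun q : GL (Fin 2) R × M2 R => TH q.1 - q.2) ''
        (((Γ : Set (GL (Fin 2) R)) ∩ {h | TH h ∈ K}) ×ˢ (K' : Set (M2 R))) := by
      ext X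
      constructor
      · rintro ⟨h, h1, h2, h3⟩
        exact ⟨(h, TH h - X), ⟨⟨h1, h2⟩, h3⟩, by change TH h - (TH h - X) = X; abel⟩
      · rintro ⟨⟨h, W⟩, ⟨⟨h1, h2⟩, h3⟩, rfl⟩
        refine ⟨h, h1, h2, ?_⟩
        have e1 : TH h - (TH h - W) = W := by abel
        change TH h - (TH h - W) ∈ K'
        rw [e1]
        exact h3
    change IsClosed {X | ∃ h ∈ Γ, TH h ∈ K ∧ TH h - X ∈ K'}
    rw [e]
    exact hI

end DEN

theorem DEN_row (hHAV : HAV_stmt) (hAMU : AMU_stmt) (hLTR : LTR_stmt) (hLLE : LLE_stmt)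
    (hLCT : LCT_stmt) (hCMN : CMN_stmt) (hTDG : TDG_stmt) : DEN_stmt := by
  intro p R _ _ _ _ _ _ J hp hp2 hS Γ hΓ hcl
  obtain ⟨hcG, -, -⟩ := hTDG p R J hS
  have hHAV1 := (hHAV p R J hp hp2 hS).1
  have hcLc : ∀ n, IsClosed (Lc Γ n : Set (M2 R)) := fun n => (hLTR p R J hp hp2 hS Γ hΓ n).1
  obtain ⟨hanti, hBr⟩ := hLLE R Γ
  have hmono : ∀ m n : ℕ, m ≤ n → Lc Γ n ≤ Lc Γ m := by
    intro m n hmn
    exact (antitone_nat_of_succ_le hanti) hmn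
  have hsm : ∀ n : ℕ, 1 ≤ n → ∀ g ∈ Γ, ∀ Z ∈ Lc Γ n, (ht g - 1) • Z ∈ Lc Γ (n + 2) := by
    intro n hn g hg
    refine hAMU p R J hp hp2 hS g (hΓ hg) (Lc Γ (n + 2)) (Lc Γ n) (hcLc _) (hmono _ _ (by omega)) ?_
    intro Z hZ
    exact hLCT p R J hp hp2 hS Γ hΓ n hn _ (DEN_TH_mem Γ hg) _ (DEN_TH_mem Γ hg) Z hZ
  have hD : ∀ n : ℕ, 1 ≤ n → ∃ D : AddSubgroup (M2 R), IsClosed (D : Set (M2 R)) ∧
      ∀ X, X ∈ D ↔ ∃ h ∈ Γ, TH h ∈ Lc Γ n ∧ TH h - X ∈ Lc Γ (n + 1) := by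
    intro n hn
    refine DEN_D Γ J hΓ hcl (Lc Γ n) (Lc Γ (n + 1)) (hcLc _) (hcLc _) (hanti n) ?_ ?_
    · intro g hg Z hZ
      exact hanti (n + 1) (hsm n hn g hg Z hZ)
    · intro X hX Y hY
      exact hmono (n + 1) (n + n + 1) (by omega)
        (hHAV1 (Lc Γ (n + n + 1)) (hcLc _) _ (hBr n n X hX Y hY))
  -- the commutators
  have hcomm : ∀ m : ℕ, ∀ g ∈ Γ, ∀ h ∈ Γ, TH h ∈ Lc Γ m →
      TH (g * h * g⁻¹ * h⁻¹) - Br (TH g) (TH h) ∈ Lc Γ (m + 2) ∧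
        TH (g * h * g⁻¹ * h⁻¹) ∈ Lc Γ (m + 1) := by
    intro m g hg h hh hm
    exact hCMN p R J hp hp2 hS Γ hΓ m g (hΓ hg) h (hΓ hh) (DEN_TH_mem Γ hg) hm
  have hcm : ∀ g ∈ Γ, ∀ h ∈ Γ, g * h * g⁻¹ * h⁻¹ ∈ Γ := by
    intro g hg h hh
    exact Γ.mul_mem (Γ.mul_mem (Γ.mul_mem hg hh) (Γ.inv_mem hg)) (Γ.inv_mem hh)
  intro n hn
  obtain ⟨m, rfl⟩ : ∃ m, n = m + 1 := ⟨n - 1, by omega⟩
  clear hn
  induction m with
  | zero =>
    obtain ⟨D, hDc, hDm⟩ := hD 1 le_rfl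
    have key : Lc Γ 1 ≤ D := by
      apply AddSubgroup.topologicalClosure_minimal _ _ hDc
      rw [AddSubgroup.closure_le]
      rintro _ ⟨X, hX, Y, hY, rfl⟩
      refine DEN_induct Γ D hDc (DEN_br1 Y) (DEN_cont1 Y) ?_ X hX
      intro g hg
      refine DEN_induct Γ D hDc (DEN_br2 (TH g)) (DEN_cont2 (TH g)) ?_ Y hY
      intro h hh
      change Br (TH g) (TH h) ∈ D
      rw [hDm]
      obtain ⟨h1, h2⟩ := hcomm 0 g hg h hh (DEN_TH_mem Γ hh)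
      exact ⟨_, hcm g hg h hh, h2, h1⟩
    intro X hX
    exact (hDm X).1 (key hX)
  | succ m ih =>
    obtain ⟨D, hDc, hDm⟩ := hD (m + 1 + 1) (by omega)
    have key : Lc Γ (m + 1 + 1) ≤ D := by
      apply AddSubgroup.topologicalClosure_minimal _ _ hDc
      rw [AddSubgroup.closure_le]
      rintro _ ⟨X, hX, Y, hY, rfl⟩
      refine DEN_induct Γ D hDc (DEN_br1 Y) (DEN_cont1 Y) ?_ X hX
      intro g hg
      change Br (TH g) Y ∈ D
      rw [hDm]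
      obtain ⟨h, hh, h3, h4⟩ := ih Y hY
      obtain ⟨h1, h2⟩ := hcomm (m + 1) g hg h hh h3
      refine ⟨_, hcm g hg h hh, h2, ?_⟩
      have e : TH (g * h * g⁻¹ * h⁻¹) - Br (TH g) Y =
          (TH (g * h * g⁻¹ * h⁻¹) - Br (TH g) (TH h)) + Br (TH g) (TH h - Y) := by
        rw [sub_eq_add_neg (TH h) Y, Lib_Br_add, Lib_Br_neg]
        abel
      rw [e]
      refine (Lc Γ (m + 1 + 2)).add_mem h1 ?_
      have h5 := hBr 0 (m + 1 + 1) (TH g) (DEN_TH_mem Γ hg) _ h4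
      have e2 : 0 + (m + 1 + 1) + 1 = m + 1 + 2 := by omega
      rw [e2] at h5
      exact h5
    intro X hX
    exact (hDm X).1 (key hX)

end Pool.Agent.PP2
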