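import Pool.Agent.helper96.PP2.SpecB

/-!
# Row SUB: the subgroup of the elements with traceless part in an admissible group
-/

set_option autoImplicit false

namespace Pool.Agent.PP2

open Topology Matrix

theorem SUB_closed {R : Type} [CommRing R] [TopologicalSpace R] [IsTopologicalRing R] [T2Space R]
    (J : Ideal R) (hJ : IsClosed (J : Set R)) : IsClosed (Sg J : Set (GL (Fin 2) R)) := by
  have e : (Sg J : Set (GL (Fin 2) R)) = {g : GL (Fin 2) R | Matrix.det (g : M2 R) = 1} ∩
      ⋂ i, ⋂ j, {g : GL (Fin 2) R | ((g : M2 R) - 1) i j ∈ J} := by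
    ext g
    rw [SetLike.mem_coe, Lib_mem_Sg]
    simp only [Set.mem_inter_iff, Set.mem_ofPred_eq, Set.mem_iInter]
  rw [e]
  refine IsClosed.inter ?_ ?_
  · exact isClosed_eq (Units.continuous_val.matrix_det) continuous_const
  · refine isClosed_iInter fun i => isClosed_iInter fun j => ?_
    have h1 : Continuous fun g : GL (Fin 2) R => ((g : M2 R) - 1) i j :=
      (Units.continuous_val.sub continuous_const).matrix_elem i j
    exact hJ.preimage h1

theorem SUB_TH_one {R : Type} [CommRing R] [Invertible (2 : R)] : TH (1 : GL (Fin 2) R) = 0 := by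
  have e : TH (1 : GL (Fin 2) R) = Th (1 : M2 R) := rfl
  rw [e, Lib_Th_one]

theorem SUB_row (hAMU : AMU_stmt) : SUB_stmt := by
  intro p R _ _ _ _ _ _ J hp hp2 hS
  have hcl := SUB_closed J hS.closed
  refine ⟨hcl, fun N hN => ?_⟩
  have hsm : ∀ g ∈ Sg J, TH g ∈ N → ∀ Z ∈ N, ht g • Z ∈ N := by
    intro g hg hgN Z hZ
    have h1 := hAMU p R J hp hp2 hS g hg N N hN.closed le_rfl
      (fun W hW => hN.bf _ hgN _ hgN W hW) Z hZ
    have e : ht g • Z = Z + (ht g - 1) • Z := by
      rw [sub_smul, one_smul]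
      abel
    rw [e]
    exact N.add_mem hZ h1
  let S : Subgroup (GL (Fin 2) R) :=
    { carrier := {g | g ∈ Sg J ∧ TH g ∈ N}
      mul_mem' := by
        rintro g h ⟨h1, h2⟩ ⟨h3, h4⟩
        refine ⟨(Sg J).mul_mem h1 h3, ?_⟩
        rw [Lib_TH_mul]
        exact N.add_mem (N.add_mem (hsm g h1 h2 _ h4) (hsm h h3 h4 _ h2))
          (hN.half _ (hN.br _ h2 _ h4))
      one_mem' := ⟨(Sg J).one_mem, by rw [SUB_TH_one]; exact N.zero_mem⟩
      inv_mem' := by
        rintro g ⟨h1, h2⟩
        refine ⟨(Sg J).inv_mem h1, ?_⟩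
        rw [Lib_TH_inv J g h1]
        exact N.neg_mem h2 }
  have key : ∀ g : GL (Fin 2) R, g ∈ ES J N ↔ g ∈ Sg J ∧ TH g ∈ N := by
    intro g
    constructor
    · intro hg
      have h1 : ES J N ≤ S := by
        unfold ES
        rw [Subgroup.closure_le]
        intro x hx
        exact hx
      exact h1 hg
    · intro hg
      exact Subgroup.subset_closure hg
  refine ⟨key, ?_⟩
  have e : (ES J N : Set (GL (Fin 2) R)) = (Sg J : Set (GL (Fin 2) R)) ∩ {g | TH g ∈ N} := by
    ext g
    exact key g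
  rw [e]
  exact hcl.inter (hN.closed.preimage Lib_cont_TH)

end Pool.Agent.PP2
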